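import Pool.Agent.CPT.StmtsB

/-!
# Squad CPT, row PJZ (helper6): the expansion of the rational functions in `X` at the point `c`
-/

set_option autoImplicit false

namespace Pool.Agent.CPT.H6

open Polynomial

section

variable {κ : Type} (Λ : Type) [Field κ] [Field Λ] [Algebra κ Λ] (c : κ)

/-- The Taylor expansion at `c`. -/
noncomputable def J1 : κ[X] →+* PowerSeries Λ :=
  eval₂RingHom ((PowerSeries.C (R := Λ)).comp (algebraMap κ Λ))
    (PowerSeries.C (algebraMap κ Λ c) + PowerSeries.X)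

theorem J1_C (a : κ) : J1 Λ c (C a) = PowerSeries.C (algebraMap κ Λ a) := by
  unfold J1
  rw [coe_eval₂RingHom, eval₂_C, RingHom.comp_apply]

theorem J1_X : J1 Λ c X = PowerSeries.C (algebraMap κ Λ c) + PowerSeries.X := by
  unfold J1
  rw [coe_eval₂RingHom, eval₂_X]

theorem J1_lin : J1 Λ c (X - C c) = PowerSeries.X := by
  rw [map_sub, J1_X, J1_C, add_sub_cancel_left]

theorem J1_constantCoeff (g : κ[X]) :
    PowerSeries.constantCoeff (J1 Λ c g) = algebraMap κ Λ (g.eval c) := by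
  have h : (PowerSeries.constantCoeff (R := Λ)).comp (J1 Λ c) =
      (algebraMap κ Λ).comp (evalRingHom c) := by
    refine Polynomial.ringHom_ext ?_ ?_
    · intro a
      rw [RingHom.comp_apply, RingHom.comp_apply, J1_C, PowerSeries.constantCoeff_C,
        coe_evalRingHom, eval_C]
    · rw [RingHom.comp_apply, RingHom.comp_apply, J1_X, map_add, PowerSeries.constantCoeff_C,
        PowerSeries.constantCoeff_X, add_zero, coe_evalRingHom, eval_X]
  have h1 := RingHom.congr_fun h g
  rwa [RingHom.comp_apply, RingHom.comp_apply, coe_evalRingHom] at h1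

/-- The expansion as a Laurent series. -/
noncomputable def J0 : κ[X] →+* LaurentSeries Λ := (HahnSeries.ofPowerSeries ℤ Λ).comp (J1 Λ c)

theorem J0_lin : J0 Λ c (X - C c) = HahnSeries.single 1 1 := by
  unfold J0
  rw [RingHom.comp_apply, J1_lin, HahnSeries.ofPowerSeries_X]

theorem J0_unit {g : κ[X]} (hg : g.eval c ≠ 0) : J0 Λ c g ≠ 0 ∧ (J0 Λ c g).order = 0 := by
  have h0 : (J0 Λ c g).coeff 0 ≠ 0 := by
    have h1 : (J0 Λ c g).coeff ((0 : ℕ) : ℤ) = PowerSeries.coeff 0 (J1 Λ c g) := by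
      unfold J0
      rw [RingHom.comp_apply, HahnSeries.ofPowerSeries_apply_coeff]
    rw [PowerSeries.coeff_zero_eq_constantCoeff_apply, J1_constantCoeff, Nat.cast_zero] at h1
    rw [h1]
    intro h2
    exact hg ((map_eq_zero _).1 h2)
  have hne : J0 Λ c g ≠ 0 := by
    intro h
    rw [h] at h0
    exact h0 (by simp)
  refine ⟨hne, le_antisymm (HahnSeries.order_le_of_coeff_ne_zero h0) ?_⟩
  rw [HahnSeries.le_order_iff_forall hne]
  intro j hj
  unfold J0
  rw [RingHom.comp_apply]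
  have h2 := PowerSeries.coeff_coe (f := J1 Λ c g) j
  rw [if_pos hj] at h2
  exact h2

theorem J0_pow {g : κ[X]} (hg : g.eval c ≠ 0) (k : ℕ) :
    J0 Λ c ((X - C c) ^ k * g) ≠ 0 ∧ (J0 Λ c ((X - C c) ^ k * g)).order = k := by
  obtain ⟨h1, h2⟩ := J0_unit Λ c hg
  have h3 : (HahnSeries.single (1 : ℤ) (1 : Λ)) ^ k ≠ 0 :=
    pow_ne_zero _ (HahnSeries.single_ne_zero one_ne_zero)
  rw [map_mul, map_pow, J0_lin]
  refine ⟨mul_ne_zero h3 h1, ?_⟩
  rw [HahnSeries.order_mul h3 h1, h2, HahnSeries.order_pow, HahnSeries.order_single one_ne_zero]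
  simp

theorem factor {g : κ[X]} (hg : g ≠ 0) :
    ∃ (k : ℕ) (g' : κ[X]), g = (X - C c) ^ k * g' ∧ g'.eval c ≠ 0 := by
  obtain ⟨q, h1, h2⟩ := exists_eq_pow_rootMultiplicity_mul_and_not_dvd g hg c
  exact ⟨_, q, h1, fun h => h2 (dvd_iff_isRoot.2 h)⟩

theorem J0_injective : Function.Injective (J0 Λ c) := by
  rw [injective_iff_map_eq_zero]
  intro g hg
  by_contra hne
  obtain ⟨k, g', rfl, h⟩ := factor c hne
  exact (J0_pow Λ c h k).1 hg

end

theorem pjz : PjzStmt := by
  intro κ Λ _ _ _ c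
  have hinj := J0_injective Λ c
  set j : FractionRing κ[X] →+* LaurentSeries Λ := IsFractionRing.lift hinj with hj
  have hja : ∀ g : κ[X], j (algebraMap κ[X] (FractionRing κ[X]) g) = J0 Λ c g := fun g =>
    IsFractionRing.lift_algebraMap hinj g
  refine ⟨j, ?_, ?_, ?_⟩
  · intro a
    rw [hja]
    unfold J0
    rw [RingHom.comp_apply, J1_C, HahnSeries.ofPowerSeries_C]
  · rw [hja]
    unfold J0
    rw [RingHom.comp_apply, J1_X, map_add, HahnSeries.ofPowerSeries_C, HahnSeries.ofPowerSeries_X]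
  · intro q hq
    by_cases hq0 : q = 0
    · refine ⟨1, 0, by simp, ?_⟩
      rw [hq0, mul_zero, map_zero]
    obtain ⟨a, b, hb, hab⟩ := IsFractionRing.div_surjective (A := κ[X]) q
    have hb0 : b ≠ 0 := nonZeroDivisors.ne_zero hb
    have hbm : algebraMap κ[X] (FractionRing κ[X]) b ≠ 0 := by
      rw [Ne, map_eq_zero_iff _ (IsFractionRing.injective κ[X] (FractionRing κ[X]))]
      exact hb0
    have ha0 : a ≠ 0 := by
      rintro rfl
      apply hq0
      rw [← hab, map_zero, zero_div]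
    have heq : algebraMap κ[X] (FractionRing κ[X]) b * q =
        algebraMap κ[X] (FractionRing κ[X]) a := by
      rw [← hab, mul_div_cancel₀ _ hbm]
    obtain ⟨k, b', hb1, hb2⟩ := factor c hb0
    obtain ⟨l, a', ha1, ha2⟩ := factor c ha0
    have hord : l ≥ k := by
      have h1 := congrArg j heq
      rw [map_mul, hja, hja] at h1
      have h2 := J0_pow Λ c hb2 k
      have h3 := J0_pow Λ c ha2 l
      rw [← hb1] at h2
      rw [← ha1] at h3
      have hjq : j q ≠ 0 := by
        rw [Ne, map_eq_zero]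
        exact hq0
      have h4 := congrArg HahnSeries.order h1
      rw [HahnSeries.order_mul h2.1 hjq, h2.2, h3.2] at h4
      omega
    obtain ⟨m, rfl⟩ : ∃ m, l = k + m := ⟨l - k, by omega⟩
    refine ⟨b', (X - C c) ^ m * a', hb2, ?_⟩
    have hlin : algebraMap κ[X] (FractionRing κ[X]) ((X - C c) ^ k) ≠ 0 := by
      rw [Ne, map_eq_zero_iff _ (IsFractionRing.injective κ[X] (FractionRing κ[X]))]
      exact pow_ne_zero _ (X_sub_C_ne_zero c)
    apply mul_left_cancel₀ hlin
    rw [← mul_assoc, ← map_mul, ← hb1, heq, ← map_mul, ha1, pow_add, mul_assoc]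

end Pool.Agent.CPT.H6
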